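import Pool.Agent.H29.FX.Targets

/-!
Row CNT of the board tfx: the number of exponent vectors of small degree.
-/

set_option autoImplicit false

open Finset MvPolynomial

namespace Pool.Agent.H67.TFX

open Pool.Agent.H29.FX

theorem pf_CNT : T_CNT := by
  intro κ _ _ s r
  have h1 : (Fintype.piFinset (fun _ : κ => range r)).card = r ^ Fintype.card κ := by
    rw [Fintype.card_piFinset]
    simp
  rw [← h1]
  refine Finset.card_le_card_of_injOn (fun α v => (α v : ℕ)) ?_ ?_
  · intro α hα
    have hα' := (Finset.mem_filter.1 (Finset.mem_coe.1 hα)).2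
    rw [Finset.mem_coe, Fintype.mem_piFinset]
    intro v
    rw [Finset.mem_range]
    exact lt_of_le_of_lt
      (Finset.single_le_sum (f := fun v => (α v : ℕ)) (fun _ _ => Nat.zero_le _)
        (Finset.mem_univ v)) hα'
  · intro α _ β _ h
    funext v
    exact Fin.ext (congrFun h v)

end Pool.Agent.H67.TFX
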