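import Pool.Agent.H29.FX.Targets

/-!
Rows CXT and CXW of the board tfx: the complexity of the derivations of a tower and of words.
-/

set_option autoImplicit false

open Finset MvPolynomial

namespace Pool.Agent.H67.TFX

open Pool.Agent.H29.FX

variable {n : ℕ}

theorem cx_nm_zero (hNRM : T_NRM) : nm (0 : Pl n) = 0 := by
  have h := (hNRM n).2.2.2.2.1 0
  rw [map_zero] at h
  rw [h]
  simp

theorem cx_nm_sum (hNRM : T_NRM) {ι : Type} (s : Finset ι) (f : ι → Pl n) :
    nm (∑ i ∈ s, f i) ≤ ∑ i ∈ s, nm (f i) := by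
  classical
  induction s using Finset.induction_on with
  | empty => rw [Finset.sum_empty, Finset.sum_empty, cx_nm_zero hNRM]
  | insert i s hi ih =>
    rw [Finset.sum_insert hi, Finset.sum_insert hi]
    exact ((hNRM n).2.1 _ _).trans (by linarith)

/-- one letter: the degree -/
theorem cx_deg (hDFM : T_DFM) (hNRM : T_NRM) (D : Dr n) (B : ℕ) (h : Pl n)
    (hD : ∀ v, (D (X v)).totalDegree ≤ B) : (D h).totalDegree ≤ h.totalDegree + B := by
  rw [hDFM n D h]
  refine (MvPolynomial.totalDegree_finsetSum _ _).trans (Finset.sup_le fun v _ => ?_)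
  refine (MvPolynomial.totalDegree_mul _ _).trans ?_
  exact Nat.add_le_add ((hNRM n).2.2.2.2.2.2.1 v h).2 (hD v)

/-- one letter: the norm -/
theorem cx_nm (hDFM : T_DFM) (hNRM : T_NRM) (D : Dr n) (b : ℝ) (h : Pl n)
    (hD : ∀ v, nm (D (X v)) ≤ b) : nm (D h) ≤ n * (h.totalDegree * nm h * b) := by
  obtain ⟨h0, -, -, hmul, -, -, hpd, -⟩ := hNRM n
  rw [hDFM n D h]
  refine (cx_nm_sum hNRM _ _).trans ?_
  have : ∑ v : Fin n, nm (pderiv v h * D (X v)) ≤ ∑ _v : Fin n, h.totalDegree * nm h * b := by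
    refine Finset.sum_le_sum fun v _ => ?_
    refine (hmul _ _).trans ?_
    exact mul_le_mul (hpd v h).1 (hD v) (h0 _) (mul_nonneg (Nat.cast_nonneg _) (h0 _))
  refine this.trans ?_
  rw [Finset.sum_const, Finset.card_univ, Fintype.card_fin, nsmul_eq_mul]

/-! ### Words -/

theorem cxw_step (α : Fin n → ℕ) (k : ℕ) (h : ∑ v, α v = k + 1) : ∃ (β : Fin n → ℕ) (i : Fin n),
    α = β + Pi.single i 1 ∧ (∀ v, v < i → β v = 0) ∧ ∑ v, β v = k := by
  have hne : (univ.filter fun v => α v ≠ 0).Nonempty := by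
    by_contra hcon
    rw [Finset.not_nonempty_iff_eq_empty, Finset.filter_eq_empty_iff] at hcon
    have : ∑ v, α v = 0 := Finset.sum_eq_zero fun v hv => by
      have := hcon hv
      simpa using this
    omega
  obtain ⟨i, hi, hmin⟩ := Finset.exists_min_image _ (fun v => v) hne
  rw [Finset.mem_filter] at hi
  have hα : α = (fun v => α v - Pi.single (M := fun _ => ℕ) i 1 v) + Pi.single i 1 := by
    funext v
    rw [Pi.add_apply]
    by_cases hv : v = i
    · subst hv
      rw [Pi.single_eq_same]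
      have := hi.2
      omega
    · rw [Pi.single_eq_of_ne hv]
      omega
  refine ⟨fun v => α v - Pi.single (M := fun _ => ℕ) i 1 v, i, hα, fun v hv => ?_, ?_⟩
  · have h1 : α v = 0 := by
      by_contra h2
      exact absurd (hmin v (Finset.mem_filter.2 ⟨Finset.mem_univ v, h2⟩)) (not_le.2 hv)
    show α v - _ = 0
    rw [h1, Nat.zero_sub]
  · have h1 := congrArg (fun γ : Fin n → ℕ => ∑ v, γ v) hα
    simp only [Pi.add_apply] at h1
    rw [Finset.sum_add_distrib, h] at h1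
    have h2 : ∑ v, Pi.single (M := fun _ => ℕ) i 1 v = 1 := by
      rw [Finset.sum_pi_single']
      simp
    rw [h2] at h1
    show ∑ v, (α v - Pi.single (M := fun _ => ℕ) i 1 v) = k
    omega

theorem pf_CXW (hDFM : T_DFM) (hDWB : T_DWB) (hNRM : T_NRM) : T_CXW := by
  intro n B Y D α f hY hD hf
  obtain ⟨h0, -, -, -, -, -, -, -⟩ := hNRM n
  obtain ⟨hd0, -, -, -, hd⟩ := hDWB n D
  have hY0 : (0 : ℝ) ≤ Y := by linarith
  obtain ⟨k, hk⟩ : ∃ k, ∑ v, α v = k := ⟨_, rfl⟩
  have key : ∀ k (α : Fin n → ℕ), ∑ v, α v = k →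
      (dw D α f).totalDegree ≤ B * (1 + k) ∧
      nm (dw D α f) ≤ Y ^ B * (n * Y ^ B * (B * (1 + (k : ℝ)))) ^ k := by
    intro k
    induction k with
    | zero =>
      intro α hα
      have hα0 : α = 0 := by
        funext v
        exact Finset.sum_eq_zero_iff.1 hα v (Finset.mem_univ v)
      rw [hα0, hd0]
      refine ⟨by simpa using hf.deg, ?_⟩
      rw [pow_zero, mul_one]
      exact hf.le
    | succ k ih =>
      intro α hα
      obtain ⟨β, i, rfl, hβ, hβk⟩ := cxw_step α k hα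
      obtain ⟨ih1, ih2⟩ := ih β hβk
      rw [hd β i f hβ]
      constructor
      · have := cx_deg hDFM hNRM (D i) B (dw D β f) fun v => (hD i v).deg
        refine this.trans ?_
        calc (dw D β f).totalDegree + B ≤ B * (1 + k) + B := Nat.add_le_add_right ih1 B
          _ = B * (1 + (k + 1)) := by ring
      · have h1 := cx_nm hDFM hNRM (D i) (Y ^ B) (dw D β f) fun v => (hD i v).le
        refine h1.trans ?_
        have hdeg : ((dw D β f).totalDegree : ℝ) ≤ B * (1 + (k : ℝ)) := by exact_mod_cast ih1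
        have hk1 : (B : ℝ) * (1 + (k : ℝ)) ≤ B * (1 + ((k + 1 : ℕ) : ℝ)) := by
          have : (0 : ℝ) ≤ B := Nat.cast_nonneg B
          push_cast
          nlinarith
        have hYB : (0 : ℝ) ≤ Y ^ B := pow_nonneg hY0 B
        have hn0 : (0 : ℝ) ≤ n := Nat.cast_nonneg n
        have hb0 : (0 : ℝ) ≤ B * (1 + (k : ℝ)) := by positivity
        have hb1 : (0 : ℝ) ≤ B * (1 + ((k + 1 : ℕ) : ℝ)) := by positivity
        have hA : (n : ℝ) * Y ^ B * (B * (1 + (k : ℝ))) ≤
            n * Y ^ B * (B * (1 + ((k + 1 : ℕ) : ℝ))) :=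
          mul_le_mul_of_nonneg_left hk1 (mul_nonneg hn0 hYB)
        have hA0 : (0 : ℝ) ≤ n * Y ^ B * (B * (1 + (k : ℝ))) :=
          mul_nonneg (mul_nonneg hn0 hYB) hb0
        have hp : (n * Y ^ B * (B * (1 + (k : ℝ)))) ^ k ≤
            (n * Y ^ B * (B * (1 + ((k + 1 : ℕ) : ℝ)))) ^ k := pow_le_pow_left₀ hA0 hA k
        calc (n : ℝ) * ((dw D β f).totalDegree * nm (dw D β f) * Y ^ B)
            ≤ n * ((B * (1 + ((k + 1 : ℕ) : ℝ))) *
              (Y ^ B * (n * Y ^ B * (B * (1 + ((k + 1 : ℕ) : ℝ)))) ^ k) * Y ^ B) := by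
              refine mul_le_mul_of_nonneg_left ?_ hn0
              refine mul_le_mul_of_nonneg_right ?_ hYB
              exact mul_le_mul (hdeg.trans hk1)
                (ih2.trans (mul_le_mul_of_nonneg_left hp hYB)) (h0 _) hb1
          _ = Y ^ B * (n * Y ^ B * (B * (1 + ((k + 1 : ℕ) : ℝ)))) ^ (k + 1) := by ring
  obtain ⟨k1, k2⟩ := key k α hk
  refine ⟨?_, ?_⟩
  · rw [hk]
    exact k1
  · have : (1 + ∑ v, (α v : ℝ)) = 1 + (k : ℝ) := by
      rw [← hk]
      push_cast
      rfl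
    rw [this, hk]
    exact k2

/-! ### Towers -/

theorem Cx.mono' {Y : ℝ} {a b : ℕ} {f : Pl n} (h : Cx Y a f) (hY : 1 ≤ Y) (hab : a ≤ b) :
    Cx Y b f :=
  ⟨h.deg.trans hab, h.le.trans (pow_le_pow_right₀ hY hab)⟩

/-- the bounds -/
def cxb (n B : ℕ) : ℕ → ℕ
  | 0 => 1
  | l + 1 => n + 2 * B + 2 * cxb n B l + 1

theorem cxb_mono (n B : ℕ) : Monotone (cxb n B) := by
  refine monotone_nat_of_le_succ fun l => ?_
  show cxb n B l ≤ n + 2 * B + 2 * cxb n B l + 1
  omega

theorem cx_nat_le {Y : ℝ} (hY : 2 ≤ Y) (m : ℕ) : (m : ℝ) ≤ Y ^ m := by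
  have h1 : (m : ℝ) ≤ (2 : ℝ) ^ m := by exact_mod_cast (Nat.lt_two_pow_self (n := m)).le
  exact h1.trans (pow_le_pow_left₀ (by norm_num) hY m)

theorem cxt_key (hDFM : T_DFM) (hNRM : T_NRM) (n B : ℕ) (Y : ℝ) (hY : 2 ≤ Y) :
    ∀ L : Tw n, (∀ q ∈ L, Cx Y B q.1) →
      (∀ i v, Cx Y (cxb n B L.length) (TD L i (X v))) ∧ Cx Y (cxb n B L.length) (TJ L) := by
  obtain ⟨h0, hadd, hneg, hmul, hC, hX, hpd, -⟩ := hNRM n
  have hY0 : (0 : ℝ) ≤ Y := by linarith
  have hY1 : (1 : ℝ) ≤ Y := by linarith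
  have hone : nm (1 : Pl n) = 1 := by
    have := hC 1
    rw [map_one] at this
    rw [this]
    simp
  have hc1 : Cx Y 1 (1 : Pl n) := ⟨by simp, by rw [hone, pow_one]; exact hY1⟩
  have hc0 : Cx Y 1 (0 : Pl n) := ⟨by simp, by
    rw [cx_nm_zero hNRM]
    positivity⟩
  intro L
  induction L with
  | nil =>
    intro _
    refine ⟨fun i v => ?_, hc1⟩
    show Cx Y 1 (pderiv i (X v))
    rw [pderiv_X]
    by_cases hv : v = i
    · subst hv
      rw [Pi.single_eq_same]
      exact hc1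
    · rw [Pi.single_eq_of_ne hv]
      exact hc0
  | cons q L ih =>
    intro hL
    obtain ⟨ih1, ih2⟩ := ih fun q' hq' => hL q' (List.mem_cons_of_mem _ hq')
    have hq := hL q List.mem_cons_self
    obtain ⟨b, hb⟩ : ∃ b, cxb n B L.length = b := ⟨_, rfl⟩
    rw [hb] at ih1 ih2
    have hlen : cxb n B (q :: L).length = n + 2 * B + 2 * b + 1 := by
      rw [← hb]
      rfl
    rw [hlen]
    have hg : ∀ j, (TD L j q.1).totalDegree ≤ B + b ∧ nm (TD L j q.1) ≤ Y ^ (n + 2 * B + b) := by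
      intro j
      constructor
      · exact (cx_deg hDFM hNRM (TD L j) b q.1 fun v => (ih1 j v).deg).trans
          (Nat.add_le_add_right hq.deg b)
      · refine (cx_nm hDFM hNRM (TD L j) (Y ^ b) q.1 fun v => (ih1 j v).le).trans ?_
        have h1 : (q.1.totalDegree : ℝ) ≤ Y ^ B :=
          (show (q.1.totalDegree : ℝ) ≤ B by exact_mod_cast hq.deg).trans (cx_nat_le hY B)
        have h2 := cx_nat_le hY n
        have e : Y ^ (n + 2 * B + b) = Y ^ n * (Y ^ B * Y ^ B * Y ^ b) := by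
          rw [← pow_add, ← pow_add, ← pow_add]
          exact congrArg (fun m => Y ^ m) (by ring)
        rw [e]
        refine mul_le_mul h2 ?_ ?_ (pow_nonneg hY0 n)
        · refine mul_le_mul_of_nonneg_right ?_ (pow_nonneg hY0 b)
          exact mul_le_mul h1 hq.le (h0 _) (pow_nonneg hY0 B)
        · exact mul_nonneg (mul_nonneg (Nat.cast_nonneg _) (h0 _)) (pow_nonneg hY0 b)
    refine ⟨fun j v => ?_, ?_⟩
    · have e : TD (q :: L) j (X v) = TD L q.2 q.1 * TD L j (X v) -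
          TD L j q.1 * TD L q.2 (X v) := rfl
      rw [e]
      have d1 : (TD L q.2 q.1 * TD L j (X v)).totalDegree ≤ n + 2 * B + 2 * b + 1 := by
        refine (totalDegree_mul _ _).trans ?_
        have := (hg q.2).1
        have := (ih1 j v).deg
        omega
      have d2 : (TD L j q.1 * TD L q.2 (X v)).totalDegree ≤ n + 2 * B + 2 * b + 1 := by
        refine (totalDegree_mul _ _).trans ?_
        have := (hg j).1
        have := (ih1 q.2 v).deg
        omega
      have n1 : nm (TD L q.2 q.1 * TD L j (X v)) ≤ Y ^ (n + 2 * B + b) * Y ^ b :=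
        (hmul _ _).trans (mul_le_mul (hg q.2).2 (ih1 j v).le (h0 _) (pow_nonneg hY0 _))
      have n2 : nm (TD L j q.1 * TD L q.2 (X v)) ≤ Y ^ (n + 2 * B + b) * Y ^ b :=
        (hmul _ _).trans (mul_le_mul (hg j).2 (ih1 q.2 v).le (h0 _) (pow_nonneg hY0 _))
      refine ⟨(totalDegree_sub _ _).trans (max_le d1 d2), ?_⟩
      have hsub : nm (TD L q.2 q.1 * TD L j (X v) - TD L j q.1 * TD L q.2 (X v)) ≤
          nm (TD L q.2 q.1 * TD L j (X v)) + nm (TD L j q.1 * TD L q.2 (X v)) := by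
        rw [sub_eq_add_neg]
        refine (hadd _ _).trans ?_
        rw [hneg]
      have e2 : Y ^ (n + 2 * B + 2 * b + 1) = Y * (Y ^ (n + 2 * B + b) * Y ^ b) := by
        rw [← pow_add, ← pow_succ']
        exact congrArg (fun m => Y ^ m) (by ring)
      have hp : 0 ≤ Y ^ (n + 2 * B + b) * Y ^ b := mul_nonneg (pow_nonneg hY0 _) (pow_nonneg hY0 _)
      rw [e2]
      nlinarith [mul_nonneg (by linarith : (0 : ℝ) ≤ Y - 2) hp]
    · have e : TJ (q :: L) = TJ L * TD L q.2 q.1 := rfl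
      rw [e]
      refine ⟨?_, ?_⟩
      · refine (totalDegree_mul _ _).trans ?_
        have := (hg q.2).1
        have := ih2.deg
        omega
      · refine (hmul _ _).trans ?_
        refine (mul_le_mul ih2.le (hg q.2).2 (h0 _) (pow_nonneg hY0 _)).trans ?_
        rw [← pow_add]
        exact pow_le_pow_right₀ hY1 (by omega)

theorem pf_CXT (hDFM : T_DFM) (hALG : T_ALG) (hNRM : T_NRM) : T_CXT := by
  intro n B
  refine ⟨cxb n B n, fun Y L hY hG hL => ?_⟩
  have hlen : L.length ≤ n := by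
    have := (hALG n L hG).2.2.2.2
    omega
  have hm := cxb_mono n B hlen
  have hY1 : (1 : ℝ) ≤ Y := by linarith
  obtain ⟨h1, h2⟩ := cxt_key hDFM hNRM n B Y hY L hL
  exact ⟨fun i v => Cx.mono' (h1 i v) hY1 hm, Cx.mono' h2 hY1 hm⟩

end Pool.Agent.H67.TFX
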